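import Pool.Agent.Y17.N.Defs3
import Pool.Agent.Y288.N.Indq

/-! Z17N: the parity of the unweighted sums for all `q` and all split primes (INDQS). -/

set_option autoImplicit false

namespace Pool.Agent.Y929.NQ

open Finset Matrix
open Pool.Agent.Y17.N
open Pool.Agent.Z700 (V3 vec Ln n0 ep pr Yd lres xres Fam sq7 be)
open Pool.Agent.Y288.N (g0_three cq_sq odd_cast odd_of_cast)

/-! ### the empty set -/

theorem cq_three : cq 3 = 2 := by
  unfold cq
  rw [if_pos (by norm_num)]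

theorem g3_empty : g0 ((3 * pr (∅ : Finset ℕ) : ℕ) : ℤ) (bq 3 ∅) = 1 := by
  have h1 : ((3 * pr (∅ : Finset ℕ) : ℕ) : ℤ) = 3 := by simp [pr]
  have h2 : bq 3 (∅ : Finset ℕ) = 2 := by
    unfold bq
    rw [cq_three, prod_empty, mul_one]
  rw [h1, h2]
  exact g0_three

/-! ### the split primes -/

theorem sq7_sq {p : ℕ} (h : Sp p) : sq7 p ^ 2 = (p : ZMod 7) ∧ sq7 p ≠ 0 := by
  have h7 : ((p % 7 : ℕ) : ZMod 7) = (p : ZMod 7) := by simp
  unfold sq7
  rcases h.2.2 with h1 | h1 | h1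
  · rw [if_pos h1, ← h7, h1]
    decide
  · rw [if_neg (by omega), if_pos h1, ← h7, h1]
    decide
  · rw [if_neg (by omega), if_neg (by omega), ← h7, h1]
    decide

theorem prod_sq {D : Finset ℕ} (h : ∀ p ∈ D, Sp p) :
    (∏ p ∈ D, sq7 p) ^ 2 = (pr D : ZMod 7) ∧ ∏ p ∈ D, sq7 p ≠ 0 := by
  have : Fact (Nat.Prime 7) := ⟨by norm_num⟩
  constructor
  · rw [← prod_pow]
    unfold pr
    rw [Nat.cast_prod]
    exact prod_congr rfl fun p hp => (sq7_sq (h p hp)).1
  · rw [prod_ne_zero_iff]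
    exact fun p hp => (sq7_sq (h p hp)).2

theorem pr_mod {D : Finset ℕ} (h : ∀ p ∈ D, Sp p) : pr D % 8 = 1 := by
  induction D using Finset.induction_on with
  | empty => simp [pr]
  | insert p D hp ih =>
    have h1 := ih fun q hq => h q (mem_insert_of_mem hq)
    have h2 := (h p (mem_insert_self p D)).2.1
    unfold pr at h1 ⊢
    rw [prod_insert hp, Nat.mul_mod, h1, h2]

theorem pr_sqf {D : Finset ℕ} (h : ∀ p ∈ D, Sp p) : Squarefree (pr D) := by
  unfold pr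
  refine Finset.squarefree_prod_of_pairwise_isCoprime ?_ ?_
  · intro p hp r hr hpr
    rw [Function.onFun, ← Nat.coprime_iff_isRelPrime]
    exact (Nat.coprime_primes (h p hp).1 (h r hr).1).2 hpr
  · exact fun p hp => (h p hp).1.prime.squarefree

theorem cop_r {r : ℕ} (hr : r.Prime) (hr8 : r % 8 = 3) {D : Finset ℕ} (h : ∀ p ∈ D, Sp p) :
    Nat.Coprime r (pr D) := by
  unfold pr
  refine Nat.Coprime.prod_right fun p hp => ?_
  refine (Nat.coprime_primes hr (h p hp).1).2 fun e => ?_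
  have := (h p hp).2.1
  omega

theorem qr_three : Qr 3 := ⟨by norm_num, by norm_num, Or.inl (by norm_num)⟩

theorem bq_sq {q : ℕ} (hq : Qr q) {D : Finset ℕ} (h : ∀ p ∈ D, Sp p) :
    bq q D ^ 2 = -((q * pr D : ℕ) : ZMod 7) ∧ bq q D ≠ 0 := by
  have : Fact (Nat.Prime 7) := ⟨by norm_num⟩
  obtain ⟨a1, a2⟩ := cq_sq hq
  obtain ⟨b1, b2⟩ := prod_sq h
  unfold bq
  constructor
  · rw [mul_pow, a1, b1]
    push_cast
    ring
  · exact mul_ne_zero a2 b2

theorem beta_mul {q : ℕ} {D P : Finset ℕ} (hD : D ⊆ P) :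
    bq q D * bq 3 (P \ D) = 2 * bq q P := by
  unfold bq
  rw [cq_three, ← prod_sdiff hD]
  ring

/-- the bilinear identity for a splitting -/
theorem bil {q : ℕ} (hb : S_BIL) (hq : Qr q) (hq3 : q ≠ 3) {P D : Finset ℕ} (hP : ∀ p ∈ P, Sp p)
    (hD : D ⊆ P) :
    g0 ((q * pr D : ℕ) : ℤ) (bq q D) * g0 ((3 * pr (P \ D) : ℕ) : ℤ) (bq 3 (P \ D)) =
      3 * (SB (q * pr D) (3 * pr (P \ D)) (-(2 * bq q P)) (-1) -
        SB (q * pr D) (3 * pr (P \ D)) (-(2 * bq q P)) 1) := by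
  have hPD : ∀ p ∈ D, Sp p := fun p hp => hP p (hD hp)
  have hPE : ∀ p ∈ P \ D, Sp p := fun p hp => hP p (mem_sdiff.1 hp).1
  have m1 := pr_mod hPD
  have m2 := pr_mod hPE
  have hq8 := hq.2.1
  have p3 : Nat.Prime 3 := by norm_num
  have s1 : Squarefree (q * pr D) := by
    rw [Nat.squarefree_mul (cop_r hq.1 hq.2.1 hPD)]
    exact ⟨hq.1.squarefree, pr_sqf hPD⟩
  have c1 : q * pr D % 8 = 3 := by
    rw [Nat.mul_mod, hq8, m1]
  have c2 : 3 * pr (P \ D) % 8 = 3 := by omega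
  have n1 : ¬ 3 ∣ pr D := (p3.coprime_iff_not_dvd).1 (cop_r p3 (by norm_num) hPD)
  have n2 : ¬ 3 ∣ pr (P \ D) := (p3.coprime_iff_not_dvd).1 (cop_r p3 (by norm_num) hPE)
  have hns : ∀ b : ℤ, b ^ 2 ≠ ((q * pr D : ℕ) : ℤ) * ((3 * pr (P \ D) : ℕ) : ℤ) := by
    intro b hb2
    have e1 : b.natAbs ^ 2 = (q * pr D) * (3 * pr (P \ D)) := by
      have : ((b.natAbs ^ 2 : ℕ) : ℤ) = (((q * pr D) * (3 * pr (P \ D)) : ℕ) : ℤ) := by
        rw [Nat.cast_pow, Int.natCast_natAbs, sq_abs, hb2]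
        push_cast
        ring
      exact_mod_cast this
    have d1 : 3 ∣ b.natAbs := by
      refine p3.dvd_of_dvd_pow (n := 2) ?_
      rw [e1]
      exact ⟨q * pr D * pr (P \ D), by ring⟩
    obtain ⟨c, hc⟩ := d1
    have e2 : 3 * c ^ 2 = q * pr D * pr (P \ D) := by
      rw [hc] at e1
      have : 3 * (3 * c ^ 2) = 3 * (q * pr D * pr (P \ D)) := by
        rw [show 3 * (3 * c ^ 2) = (3 * c) ^ 2 by ring, e1]
        ring
      exact Nat.eq_of_mul_eq_mul_left (by norm_num) this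
    have d2 : 3 ∣ q * pr D * pr (P \ D) := ⟨c ^ 2, e2.symm⟩
    rcases p3.dvd_mul.1 d2 with d3 | d3
    · rcases p3.dvd_mul.1 d3 with d4 | d4
      · exact hq3 ((Nat.prime_dvd_prime_iff_eq p3 hq.1).1 d4).symm
      · exact n1 d4
    · exact n2 d3
  have b1 := hb (q * pr D) (3 * pr (P \ D)) s1 c1 c2 (bq q D) (bq 3 (P \ D)) (bq_sq hq hPD).2
    (bq_sq qr_three hPE).2 (bq_sq hq hPD).1 (bq_sq qr_three hPE).1 1 (Or.inl rfl)
    (fun b _ _ => hns b)
  have b2 := hb (q * pr D) (3 * pr (P \ D)) s1 c1 c2 (bq q D) (bq 3 (P \ D)) (bq_sq hq hPD).2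
    (bq_sq qr_three hPE).2 (bq_sq hq hPD).1 (bq_sq qr_three hPE).1 (-1) (Or.inr rfl)
    (fun b _ _ => hns b)
  rw [beta_mul hD] at b1 b2
  linarith

theorem par_aux {N Y S T Z : ℤ} (h1 : Odd N ↔ Odd Z) (h2 : Odd S ↔ Odd T)
    (h3 : (2 : ℤ) ∣ Z - (Y + T)) : Odd (3 * N - S) ↔ Odd Y := by
  rw [Int.odd_iff, Int.odd_iff] at h1 h2
  rw [Int.odd_iff, Int.odd_iff]
  omega

/-- **INDQS**: the parity of the unweighted sums for all `q` and all split primes. -/
theorem t_INDQS (hb : S_BIL) (h3 : S_IND3S) (hg : S_GENQ) (hf : S_FIXQ) : S_INDQS := by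
  intro q P hq
  by_cases hq3 : q = 3
  · subst hq3
    exact h3 P
  induction P using Finset.strongInduction with
  | H P ih =>
    intro hP
    -- the quotients
    obtain ⟨y, hydef⟩ : ∃ y : Finset ℕ → ℤ,
      y = fun D => g0 ((q * pr D : ℕ) : ℤ) (bq q D) / (2 ^ D.card) := ⟨_, rfl⟩
    have hy : ∀ D ⊆ P, D ≠ P → g0 ((q * pr D : ℕ) : ℤ) (bq q D) = 2 ^ D.card * y D ∧
        (Odd (y D) ↔ Odd (Yd lres (fun p => xres p + eQ q p) D)) := by
      intro D hD hDP
      obtain ⟨z, hz1, hz2⟩ := ih D (Finset.ssubset_iff_subset_ne.2 ⟨hD, hDP⟩)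
        (fun p hp => hP p (hD hp))
      have : y D = z := by
        rw [hydef]
        show g0 ((q * pr D : ℕ) : ℤ) (bq q D) / (2 ^ D.card) = z
        rw [hz1]
        exact Int.mul_ediv_cancel_left _ (by positivity)
      rw [this]
      exact ⟨hz1, hz2⟩
    obtain ⟨w, hwdef⟩ : ∃ w : Finset ℕ → ℤ,
      w = fun D => g0 ((3 * pr D : ℕ) : ℤ) (bq 3 D) / (2 ^ D.card) := ⟨_, rfl⟩
    have hw : ∀ D ⊆ P, g0 ((3 * pr D : ℕ) : ℤ) (bq 3 D) = 2 ^ D.card * w D ∧
        (Odd (w D) ↔ Odd (Yd lres (fun p => xres p + eQ 3 p) D)) := by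
      intro D hD
      obtain ⟨z, hz1, hz2⟩ := h3 D (fun p hp => hP p (hD hp))
      have : w D = z := by
        rw [hwdef]
        show g0 ((3 * pr D : ℕ) : ℤ) (bq 3 D) / (2 ^ D.card) = z
        rw [hz1]
        exact Int.mul_ediv_cancel_left _ (by positivity)
      rw [this]
      exact ⟨hz1, hz2⟩
    obtain ⟨N, hN1, hN2⟩ := hg q P hq hq3 hP
    have hN3 : Odd N ↔ Odd (Yd lres (fun p => eQ q p + eQ 3 p) P) := by
      rw [hN2, hf q P hq hq3 hP]
    have hsum : ∑ D ∈ P.powerset, g0 ((q * pr D : ℕ) : ℤ) (bq q D) *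
        g0 ((3 * pr (P \ D) : ℕ) : ℤ) (bq 3 (P \ D)) = 3 * (2 ^ P.card * N) := by
      rw [← hN1, mul_sum]
      apply sum_congr rfl
      intro D hD
      exact bil hb hq hq3 hP (mem_powerset.1 hD)
    have hPmem : P ∈ P.powerset := mem_powerset.2 (Subset.refl P)
    obtain ⟨F, hF⟩ : ∃ F, F = P.powerset.erase P := ⟨_, rfl⟩
    have hFm : ∀ D ∈ F, D ⊆ P ∧ D ≠ P := by
      intro D hD
      rw [hF, mem_erase, mem_powerset] at hD
      exact ⟨hD.2, hD.1⟩
    have hs1 : ∑ D ∈ P.powerset, g0 ((q * pr D : ℕ) : ℤ) (bq q D) *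
        g0 ((3 * pr (P \ D) : ℕ) : ℤ) (bq 3 (P \ D)) =
        g0 ((q * pr P : ℕ) : ℤ) (bq q P) + 2 ^ P.card * ∑ D ∈ F, y D * w (P \ D) := by
      rw [← Finset.add_sum_erase _ _ hPmem, ← hF, mul_sum]
      have e0 : P \ P = ∅ := Finset.sdiff_self P
      rw [e0, g3_empty, mul_one]
      congr 1
      apply sum_congr rfl
      intro D hD
      obtain ⟨a1, a2⟩ := hFm D hD
      rw [(hy D a1 a2).1, (hw (P \ D) sdiff_subset).1]
      have hc : (2 : ℤ) ^ P.card = 2 ^ D.card * 2 ^ (P \ D).card := by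
        rw [← pow_add]
        congr 1
        rw [card_sdiff_of_subset a1]
        have := card_le_card a1
        omega
      rw [hc]
      ring
    have hadd := Pool.Agent.Z179.yd_add lres P.card P rfl (fun p => xres p + eQ q p)
      (fun p => xres p + eQ 3 p)
    have hs2 : ∑ S ∈ P.powerset, Yd lres (fun p => xres p + eQ q p) S *
        Yd lres (fun p => xres p + eQ 3 p) (P \ S) =
        Yd lres (fun p => xres p + eQ q p) P +
          ∑ D ∈ F, Yd lres (fun p => xres p + eQ q p) D *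
            Yd lres (fun p => xres p + eQ 3 p) (P \ D) := by
      rw [← Finset.add_sum_erase _ _ hPmem, ← hF]
      have e0 : P \ P = ∅ := Finset.sdiff_self P
      rw [e0, Pool.Agent.Z179.yd_empty, mul_one]
    have hpar := Pool.Agent.Z179.yd_par lres (fun p => eQ q p + eQ 3 p)
      (fun k => (fun p => xres p + eQ q p) k + (fun p => xres p + eQ 3 p) k) P (by
        intro k _
        exact ⟨-xres k, by ring⟩)
    rw [hadd, hs2] at hpar
    refine ⟨3 * N - ∑ D ∈ F, y D * w (P \ D), ?_, ?_⟩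
    · rw [hs1] at hsum
      linarith
    · have hcong : (Odd (∑ D ∈ F, y D * w (P \ D)) ↔
          Odd (∑ D ∈ F, Yd lres (fun p => xres p + eQ q p) D *
            Yd lres (fun p => xres p + eQ 3 p) (P \ D))) := by
        apply odd_of_cast
        push_cast
        apply sum_congr rfl
        intro D hD
        obtain ⟨a1, a2⟩ := hFm D hD
        rw [odd_cast _ _ (hy D a1 a2).2, odd_cast _ _ (hw (P \ D) sdiff_subset).2]
      exact par_aux hN3 hcong hpar

end Pool.Agent.Y929.NQ
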